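import Pool.Agent.Helper64.CT.Stmts

set_option autoImplicit false

namespace Pool.Agent.Helper64.CT

open Pool.Agent.Helper64.HG (Ovl)

theorem sd1_aux {V : Type} {G : SimpleGraph V} {S : Set V} {l r : V → ℝ} (h : MOn G S l r)
    {b x y : V} (hb : b ∈ S) (hx : x ∈ S) (hy : y ∈ S) (hxb : x ∈ Far G b) (hyb : y ∈ Far G b)
    (hxy : G.Adj x y) (hi : Ins l r b x) : Ins l r b y := by
  have h1 := h.lt b hb
  have h2 := h.lt x hx
  have h3 := h.lt y hy
  have a1 : ¬ Ovl l r b x := fun hc => hxb.2 ((h.adj b hb x hx).2 hc)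
  have a2 : ¬ Ovl l r b y := fun hc => hyb.2 ((h.adj b hb y hy).2 hc)
  have a3 : Ovl l r x y := (h.adj x hx y hy).1 hxy
  have b1 : l b ≠ l y := fun hc => hyb.1 (h.injl b hb y hy hc).symm
  have b2 : r b ≠ r y := fun hc => hyb.1 (h.injr b hb y hy hc).symm
  have b3 : l b ≠ r y := h.ne b hb y hy
  have b4 : l y ≠ r b := h.ne y hy b hb
  obtain ⟨i1, i2⟩ := hi
  unfold Ovl at a2 a3
  unfold Ins
  rcases lt_or_gt_of_ne b1 with c1 | c1 <;> rcases lt_or_gt_of_ne b2 with c2 | c2 <;>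
    rcases lt_or_gt_of_ne b3 with c3 | c3 <;> rcases lt_or_gt_of_ne b4 with c4 | c4 <;>
    rcases a3 with a3 | a3 <;> first
      | exact ⟨c1, c2⟩
      | (exfalso; linarith [a3.1, a3.2.1, a3.2.2])
      | (exfalso; exact a2 (Or.inl ⟨by linarith, by linarith, by linarith⟩))
      | (exfalso; exact a2 (Or.inr ⟨by linarith, by linarith, by linarith⟩))

theorem st_SD1 : ST_SD1 := by
  intro V G S l r h b hb x hx y hy hxb hyb hxy
  exact ⟨sd1_aux h hb hx hy hxb hyb hxy, sd1_aux h hb hy hx hyb hxb hxy.symm⟩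

end Pool.Agent.Helper64.CT
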