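import Pool.Agent.Helper64.CT.Stmts

set_option autoImplicit false

namespace Pool.Agent.Helper64.CT

open Pool.Agent.Helper64.HG (Ovl Model)

theorem sd2_mon {V : Type} {G : SimpleGraph V} {l r : V → ℝ} (h : Model G l r) :
    MOn G Set.univ l r where
  lt := fun v _ => h.lt v
  injl := fun _ _ _ _ e => h.injl e
  injr := fun _ _ _ _ e => h.injr e
  ne := fun u _ v _ => h.ne u v
  adj := fun u _ v _ => h.adj u v

theorem st_SD2 (h1 : ST_SD1) : ST_SD2 := by
  intro V G l r h b x y hc
  refine hc.ind (fun w => (Ins l r b x ↔ Ins l r b w)) Iff.rfl ?_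
  intro z w hz hP hw hzw
  exact hP.trans (h1 V G Set.univ l r (sd2_mon h) b trivial z trivial w trivial hz.right hw hzw)

end Pool.Agent.Helper64.CT
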