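import Pool.Agent.Helper96.CT.Stmts

/-! Row UP of the sheet on connected Ramsey numbers of paths (MP_5ec5e0_co, Q2). -/

set_option autoImplicit false

namespace Pool.Agent.Helper61.CT

open SimpleGraph Finset Pool.Agent.Helper96.CT

theorem st_UP (h : ST_LA) : ST_UP := by
  intro V _ F k p hF hk hp hAL hPL
  classical
  obtain ⟨P, hPn, hPc, hmax⟩ : ∃ P : List V, P.Nodup ∧ P.IsChain F.Adj ∧
      ∀ l : List V, l.Nodup → l.IsChain F.Adj → l.length ≤ P.length := by
    have h0 := Nat.findGreatest_spec (P := fun n => ∃ l : List V, l.Nodup ∧ l.IsChain F.Adj ∧ l.length = n)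
      (m := 0) (n := p) (Nat.zero_le _) ⟨[], by simp, by simp, rfl⟩
    obtain ⟨P, h1, h2, h3⟩ := h0
    refine ⟨P, h1, h2, fun l h4 h5 => ?_⟩
    rw [h3]
    exact Nat.le_findGreatest (hPL l h4 h5) ⟨l, h4, h5, rfl⟩
  have hPp : P.length ≤ p := hPL P hPn hPc
  have hPne : P ≠ [] := by
    obtain ⟨v⟩ := hF.nonempty
    have := hmax [v] (by simp) (by simp)
    intro e
    rw [e] at this
    simp at this
  set S : Finset V := univ.filter fun x => x ∉ P with hS
  set R : Finset V := S.filter fun x => ∃ y ∈ P, F.Adj x y with hR
  have memS : ∀ x, x ∈ S ↔ x ∉ P := fun x => by simp [hS]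
  have memR : ∀ x, x ∈ R ↔ x ∉ P ∧ ∃ y ∈ P, F.Adj x y := fun x => by rw [hR, mem_filter, memS]
  have hcard : Fintype.card V = P.length + S.card := by
    have e1 : (univ.filter fun x => x ∈ P).card = P.length := by
      have e2 : (univ.filter fun x => x ∈ P) = P.toFinset := by
        ext x
        simp
      rw [e2, List.toFinset_card_of_nodup hPn]
    have e3 := Finset.card_filter_add_card_filter_not (s := (univ : Finset V)) (fun x => x ∈ P)
    rw [e1] at e3
    rw [← Finset.card_univ, ← e3]
  have reach : ∀ (x y : V) (_ : F.Walk x y), x ∉ P → y ∈ P → ∃ l : List V, l ≠ [] ∧ l.IsChain F.Adj ∧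
      (∀ z ∈ l, z ∈ S) ∧ (∀ z ∈ l.head?, z ∈ R) ∧ ∀ z ∈ l.getLast?, z = x := by
    intro x y w
    induction w with
    | nil => intro h1 h2; exact absurd h2 h1
    | @cons u v w hadj _ ih =>
      intro h1 h2
      have hu : u ∈ S := (memS u).mpr h1
      by_cases hv : v ∈ P
      · refine ⟨[u], by simp, by simp, by simpa using hu, ?_, by simp⟩
        intro z hz
        have : u = z := by simpa using hz
        subst this
        exact (memR u).mpr ⟨h1, v, hv, hadj⟩
      · obtain ⟨l, a1, a2, a3, a4, a5⟩ := ih hv h2
        refine ⟨l ++ [u], by simp, ?_, ?_, ?_, by simp⟩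
        · rw [List.isChain_append]
          refine ⟨a2, by simp, ?_⟩
          intro a ha b hb
          have hb' : u = b := by simpa using hb
          rw [← hb', a5 a ha]
          exact hadj.symm
        · intro z hz
          rw [List.mem_append] at hz
          rcases hz with hz | hz
          · exact a3 z hz
          · have : z = u := by simpa using hz
            rw [this]
            exact hu
        · intro z hz
          rw [List.head?_append_of_ne_nil _ a1] at hz
          exact a4 z hz
  -- two extensions of the longest path
  have ext : ∀ (l : List V) (r : V) (t : List V), l = r :: t → l.Nodup → l.IsChain F.Adj → (∀ y ∈ l, y ∉ P) →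
      ∀ (A : List V) (v : V) (B : List V), P = A ++ v :: B → F.Adj r v → l.length ≤ A.length ∧ l.length ≤ B.length := by
    intro l r t hl hln hlc hlP A v B hAB hrv
    have hPn' := hPn
    have hPc' := hPc
    rw [hAB] at hPn' hPc'
    rw [List.nodup_append] at hPn'
    rw [List.isChain_append] at hPc'
    obtain ⟨n1, n2, n3⟩ := hPn'
    obtain ⟨c1, c2, c3⟩ := hPc'
    constructor
    · -- `l.reverse ++ v :: B`
      have h1 := hmax (l.reverse ++ v :: B) (by
        rw [List.nodup_append]
        refine ⟨List.nodup_reverse.mpr hln, n2, ?_⟩
        intro a ha b hb e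
        rw [List.mem_reverse] at ha
        apply hlP a ha
        rw [hAB, e]
        exact List.mem_append_right _ hb) (by
        rw [List.isChain_append]
        refine ⟨?_, c2, ?_⟩
        · rw [List.isChain_reverse]
          exact hlc.imp fun a b hab => hab.symm
        · intro a ha b hb
          have hb' : v = b := by simpa using hb
          have ha' : r = a := by
            rw [hl] at ha
            simpa using ha
          rw [← hb', ← ha']
          exact hrv)
      rw [hAB] at h1
      simp only [List.length_append, List.length_reverse, List.length_cons] at h1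
      omega
    · have h1 := hmax ((A ++ [v]) ++ l) (by
        rw [List.nodup_append]
        refine ⟨?_, hln, ?_⟩
        · rw [List.nodup_append]
          refine ⟨n1, by simp, ?_⟩
          intro a ha b hb
          have hb' : b = v := by simpa using hb
          rw [hb']
          exact n3 a ha v (by simp)
        · intro a ha b hb e
          apply hlP b hb
          rw [hAB, ← e]
          rw [List.mem_append] at ha ⊢
          rcases ha with ha | ha
          · exact Or.inl ha
          · right
            have : a = v := by simpa using ha
            rw [this]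
            simp) (by
        rw [List.isChain_append]
        refine ⟨?_, hlc, ?_⟩
        · rw [List.isChain_append]
          refine ⟨c1, by simp, ?_⟩
          intro a ha b hb
          apply c3 a ha
          simpa using hb
        · intro a ha b hb
          have ha' : v = a := by simpa using ha
          have hb' : r = b := by
            rw [hl] at hb
            simpa using hb
          rw [← ha', ← hb']
          exact hrv.symm)
      rw [hAB] at h1
      simp only [List.length_append, List.length_cons, List.length_nil] at h1
      omega
  by_cases hSe : S = ∅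
  · rw [hcard, hSe, Finset.card_empty, add_zero]
    have e1 : 2 * ((p - 1) / 2) ≤ k * ((p - 1) / 2) := Nat.mul_le_mul_right _ hk
    omega
  · obtain ⟨s, hs⟩ := Finset.nonempty_iff_ne_empty.mpr hSe
    obtain ⟨y0, hy0⟩ := List.exists_mem_of_ne_nil P hPne
    have hwalk : ∀ x ∈ S, ∃ l : List V, l ≠ [] ∧ l.IsChain F.Adj ∧ (∀ z ∈ l, z ∈ S) ∧
        (∀ z ∈ l.head?, z ∈ R) ∧ ∀ z ∈ l.getLast?, z = x := by
      intro x hx
      obtain ⟨w⟩ := hF.preconnected x y0
      exact reach x y0 w ((memS x).mp hx) hy0
    obtain ⟨I, hIS, hI, hle⟩ := h V F ((P.length - 1) / 2) S R (filter_subset _ _) hwalk (by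
      intro l hln hlc hlS hlR
      cases hl : l with
      | nil => simp
      | cons r t =>
        have hr := (memR r).mp (hlR r (by rw [hl]; simp))
        obtain ⟨v, hv, hrv⟩ := hr.2
        obtain ⟨A, B, hAB⟩ := List.append_of_mem hv
        have := ext l r t hl hln hlc (fun y hy => (memS y).mp (hlS y hy)) A v B hAB hrv
        have hlen : P.length = A.length + B.length + 1 := by
          rw [hAB]
          simp only [List.length_append, List.length_cons]
          omega
        rw [← hl]
        omega)
    -- an edge leaving the path
    obtain ⟨l, hl1, _, _, hl4, _⟩ := hwalk s hs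
    obtain ⟨r, t, hlr⟩ := List.exists_cons_of_ne_nil hl1
    have hr := (memR r).mp (hl4 r (by rw [hlr]; simp))
    obtain ⟨hrP, v, hv, hrv⟩ := hr
    obtain ⟨A, B, hAB⟩ := List.append_of_mem hv
    have hAB1 := ext [r] r [] rfl (by simp) (by simp) (by
      intro y hy
      have : y = r := by simpa using hy
      rw [this]
      exact hrP) A v B hAB hrv
    simp only [List.length_cons, List.length_nil, zero_add] at hAB1
    -- ends
    obtain ⟨a, A', hA⟩ := List.exists_cons_of_ne_nil (List.ne_nil_of_length_pos hAB1.1)
    obtain ⟨B', b, hB⟩ : ∃ B' b, B = B' ++ [b] := by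
      have hBne : B ≠ [] := List.ne_nil_of_length_pos hAB1.2
      exact ⟨B.dropLast, B.getLast hBne, (List.dropLast_append_getLast hBne).symm⟩
    have ha : a ∈ P := by rw [hAB, hA]; simp
    have hb : b ∈ P := by rw [hAB, hB]; simp
    have hPn' := hPn
    have hPc' := hPc
    rw [hAB] at hPn' hPc'
    rw [List.nodup_append] at hPn'
    rw [List.isChain_append] at hPc'
    obtain ⟨n1, n2, n3⟩ := hPn'
    obtain ⟨c1, c2, c3⟩ := hPc'
    have hane : a ≠ b := n3 a (by rw [hA]; simp) b (by rw [hB]; simp)
    have haS : ∀ z, z ∉ P → ¬ F.Adj z a := by
      intro z hz hza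
      have := ext [z] z [] rfl (by simp) (by simp) (by
        intro y hy
        have : y = z := by simpa using hy
        rw [this]
        exact hz) [] a (A' ++ v :: B) (by rw [hAB, hA]; rfl) hza
      simp at this
    have hbS : ∀ z, z ∉ P → ¬ F.Adj z b := by
      intro z hz hzb
      have := ext [z] z [] rfl (by simp) (by simp) (by
        intro y hy
        have : y = z := by simpa using hy
        rw [this]
        exact hz) (A ++ v :: B') b [] (by rw [hAB, hB]; simp) hzb
      simp at this
    have hab : ¬ F.Adj b a := by
      intro hba
      have h1 := hmax (r :: ((v :: B) ++ A)) (by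
        rw [List.nodup_cons, List.nodup_append]
        refine ⟨?_, n2, n1, ?_⟩
        · intro hh
          apply hrP
          rw [hAB]
          rw [List.mem_append] at hh ⊢
          exact hh.symm
        · intro x hx y hy e
          exact n3 y hy x hx e.symm) (by
        rw [List.isChain_cons]
        constructor
        · intro y hy
          have : v = y := by simpa using hy
          rw [← this]
          exact hrv
        · rw [List.isChain_append]
          refine ⟨c2, c1, ?_⟩
          intro x hx y hy
          have hx' : b = x := by
            rw [hB] at hx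
            have e2 : v :: (B' ++ [b]) = (v :: B') ++ [b] := rfl
            rw [e2, List.getLast?_append] at hx
            simpa using hx
          have hy' : a = y := by
            rw [hA] at hy
            simpa using hy
          rw [← hx', ← hy']
          exact hba)
      rw [hAB] at h1
      simp only [List.length_append, List.length_cons] at h1
      omega
    have hIP : ∀ z ∈ I, z ∉ P := fun z hz => (memS z).mp (hIS hz)
    have haI : a ∉ insert b I := by
      rw [mem_insert, not_or]
      exact ⟨hane, fun hh => hIP a hh ha⟩
    have hbI : b ∉ I := fun hh => hIP b hh hb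
    have hk2 := hAL (insert a (insert b I)) (by
      intro x hx y hy hxy hadj
      rw [mem_insert, mem_insert] at hx hy
      rcases hx with rfl | rfl | hx
      · rcases hy with rfl | rfl | hy
        · exact hxy rfl
        · exact hab hadj.symm
        · exact haS y (hIP y hy) hadj.symm
      · rcases hy with rfl | rfl | hy
        · exact hab hadj
        · exact hxy rfl
        · exact hbS y (hIP y hy) hadj.symm
      · rcases hy with rfl | rfl | hy
        · exact haS x (hIP x hx) hadj
        · exact hbS x (hIP x hx) hadj
        · exact hI x hx y hy hxy hadj)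
    rw [card_insert_of_notMem haI, card_insert_of_notMem hbI] at hk2
    obtain ⟨j, rfl⟩ : ∃ j, k = j + 2 := ⟨k - 2, by omega⟩
    have e1 : (P.length - 1) / 2 * I.card ≤ (p - 1) / 2 * j :=
      Nat.mul_le_mul (by omega) (by omega)
    have e2 : (j + 2) * ((p - 1) / 2) = (p - 1) / 2 * j + 2 * ((p - 1) / 2) := by ring
    rw [hcard, e2]
    omega

end Pool.Agent.Helper61.CT
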